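import Mathlib
import Pool.Agent.KS6_3.ZL.H387R3.ZT.Stmts

/-! Project ZT, task End: the final assembly. -/

set_option autoImplicit false

open PowerSeries

namespace Pool.Agent.H412R3.ZT

open Pool.Agent.H387R3.ZT Pool.Agent.H707R3

variable {p : ℕ} [Fact p.Prime]

lemma recipProd_add (A B : Multiset ℂ_[p]) :
    recipProd (A + B) = recipProd A * recipProd B := by
  simp only [recipProd, Multiset.map_add, Multiset.prod_add]

lemma recipPoly_add (A B : Multiset ℂ_[p]) :
    recipPoly (A + B) = recipPoly A * recipPoly B := by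
  simp only [recipPoly, Multiset.map_add, Multiset.prod_add]

lemma recipProd_finset {ι : Type*} (s : Finset ι) (B : ι → Multiset ℂ_[p]) :
    ∏ i ∈ s, recipProd (B i) = recipProd (∑ i ∈ s, B i) := by
  classical
  induction s using Finset.induction_on with
  | empty => simp [recipProd]
  | insert a s ha ih => rw [Finset.prod_insert ha, Finset.sum_insert ha, recipProd_add, ih]

lemma recipPoly_injective {A B : Multiset ℂ_[p]} (h : recipProd A = recipProd B) :
    recipPoly A = recipPoly B := by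
  rw [← coe_recipPoly, ← coe_recipPoly] at h
  exact Polynomial.coe_injective _ h

lemma mem_of_recipProd_eq {A B C : Multiset ℂ_[p]} (h : recipProd A = recipProd B * recipProd C)
    {α : ℂ_[p]} (hα : α ∈ B) (h0 : α ≠ 0) : α ∈ A := by
  have h1 : recipPoly A = recipPoly (B + C) := recipPoly_injective (by rw [h, recipProd_add])
  have h2 : Polynomial.eval α⁻¹ (recipPoly A) = 0 := by
    rw [h1, recipPoly_add, Polynomial.eval_mul]
    obtain ⟨B', rfl⟩ := Multiset.exists_cons_of_mem hα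
    simp only [recipPoly, Multiset.map_cons, Multiset.prod_cons, Polynomial.eval_mul]
    simp [mul_inv_cancel₀ h0]
  have h3 : Polynomial.eval α⁻¹ (recipPoly A) = (A.map fun β => 1 - β * α⁻¹).prod := by
    rw [recipPoly, Polynomial.eval_multiset_prod, Multiset.map_map]
    simp
  rw [h3, Multiset.prod_eq_zero_iff, Multiset.mem_map] at h2
  obtain ⟨β, hβ, hβ0⟩ := h2
  have : β = α := by
    have h4 : β * α⁻¹ = 1 := by linear_combination -hβ0
    calc β = β * α⁻¹ * α := by rw [mul_assoc, inv_mul_cancel₀ h0, mul_one]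
      _ = α := by rw [h4, one_mul]
  rwa [← this]

lemma genField_le {A B C : Multiset ℂ_[p]} (h : recipProd A = recipProd B * recipProd C) :
    genField B ≤ genField A := by
  rw [genField, IntermediateField.adjoin_le_iff]
  intro α hα
  by_cases h0 : α = 0
  · rw [h0]; exact (genField A).zero_mem
  · exact IntermediateField.subset_adjoin _ _ (mem_of_recipProd_eq h hα h0)

lemma ramIdx_mono {K L : IntermediateField ℚ_[p] ℂ_[p]} (h : K ≤ L) (hL : ramIdx L ≠ 0) :
    ramIdx K ≤ ramIdx L :=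
  Subgroup.relIndex_le_of_le_right (valGroup_mono h) hL

/-- existence of characters of order `p ^ n` -/
lemma exists_char {G : Type*} [Group G] (Φ : G ≃* Multiplicative ℤ_[p]) (n : ℕ) :
    ∃ χ : G →* ℂ_[p]ˣ, orderOf χ = p ^ n := by
  have hp : p.Prime := Fact.out
  have hne : NeZero (p ^ n) := ⟨pow_ne_zero _ hp.ne_zero⟩
  have hne' : NeZero ((p ^ n : ℕ) : ℂ_[p]) := ⟨by exact_mod_cast hne.out⟩
  obtain ⟨z, hz⟩ : ∃ z : ℂ_[p], IsPrimitiveRoot z (p ^ n) := by
    obtain ⟨z, hz⟩ := IsAlgClosed.exists_root (Polynomial.cyclotomic (p ^ n) ℂ_[p])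
      (Polynomial.degree_cyclotomic_pos _ _ (Nat.pos_of_ne_zero hne.out)).ne'
    exact ⟨z, Polynomial.isRoot_cyclotomic_iff.1 hz⟩
  obtain ⟨u, rfl⟩ : ∃ u : ℂ_[p]ˣ, (u : ℂ_[p]) = z := (hz.isUnit hne.out)
  have hu : IsPrimitiveRoot u (p ^ n) := IsPrimitiveRoot.coe_units_iff.1 hz
  let f : ℤ →+ Additive ℂ_[p]ˣ := zmultiplesHom _ (Additive.ofMul u)
  have hf : f ((p ^ n : ℕ) : ℤ) = 0 := by
    simp only [f, zmultiplesHom_apply]
    rw [natCast_zsmul, ← ofMul_pow, hu.pow_eq_one]
    rfl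
  let g : ZMod (p ^ n) →+ Additive ℂ_[p]ˣ := ZMod.lift (p ^ n) ⟨f, hf⟩
  let g' : Multiplicative ℤ_[p] →* ℂ_[p]ˣ :=
    AddMonoidHom.toMultiplicativeLeft (g.comp (PadicInt.toZModPow (p := p) n).toAddMonoidHom)
  let χ : G →* ℂ_[p]ˣ := g'.comp Φ.toMonoidHom
  have hval : ∀ σ : G, ∃ m : ℤ, χ σ = u ^ m := by
    intro σ
    obtain ⟨m, hm⟩ := ZMod.intCast_surjective (PadicInt.toZModPow (p := p) n (Φ σ).toAdd)
    refine ⟨m, ?_⟩
    have : g (PadicInt.toZModPow (p := p) n (Φ σ).toAdd) = f m := by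
      rw [← hm]
      exact ZMod.lift_coe _ _ _
    exact this
  have hone : χ (Φ.symm (Multiplicative.ofAdd 1)) = u := by
    have h1 : g (PadicInt.toZModPow (p := p) n 1) = f 1 := by
      have := ZMod.lift_coe (p ^ n) ⟨f, hf⟩ (1 : ℤ)
      rw [map_one]
      simpa using this
    have h2 : χ (Φ.symm (Multiplicative.ofAdd 1)) = (g (PadicInt.toZModPow (p := p) n 1)).toMul := by
      show g' (Φ (Φ.symm (Multiplicative.ofAdd 1))) = _
      rw [MulEquiv.apply_symm_apply]
      rfl
    rw [h2, h1]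
    show u ^ (1 : ℤ) = u
    exact zpow_one u
  refine ⟨χ, ?_⟩
  have h3 : orderOf χ = orderOf u := by
    apply orderOf_eq_orderOf_iff.2
    intro m
    constructor
    · intro hm
      have := congrArg (fun ψ : G →* ℂ_[p]ˣ => ψ (Φ.symm (Multiplicative.ofAdd 1))) hm
      simpa [hone] using this
    · intro hm
      ext σ : 1
      rw [MonoidHom.pow_apply, MonoidHom.one_apply]
      obtain ⟨j, hj⟩ := hval σ
      rw [hj, ← zpow_natCast, ← zpow_mul, mul_comm, zpow_mul, zpow_natCast, hm, one_zpow]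
  rw [h3, ← hu.eq_orderOf]

/-- the layers are function fields of curves -/
lemma layer_curve {k F E : Type} [Field k] [Field F] [Algebra k F] [Field E] [Algebra F E]
    [Algebra k E] [IsScalarTower k F E] (h : IsZpTower k F E p) (K : IntermediateField F E)
    [FiniteDimensional F K] : IsCurveFunctionField k K := by
  have : IsScalarTower k F K := IsScalarTower.of_algebraMap_eq fun x => by
    apply Subtype.ext
    exact IsScalarTower.algebraMap_apply k F E x
  refine ⟨?_, ?_, ?_⟩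
  · have := h.base.essFiniteType
    exact Algebra.EssFiniteType.comp k F K
  · have : Algebra.IsAlgebraic F K := Algebra.IsAlgebraic.of_finite F K
    have h1 := _root_.trdeg_add_eq k F (A := K)
    rw [trdeg_eq_zero_iff.2 (inferInstance : Algebra.IsAlgebraic F K), add_zero] at h1
    rw [← h1]
    exact h.base.trdeg_eq_one
  · intro a ha
    have h2 : IsAlgebraic k (a : E) := by
      have : IsScalarTower k K E := IsScalarTower.of_algebraMap_eq fun x => rfl
      obtain ⟨P, hP, hP0⟩ := ha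
      refine ⟨P, hP, ?_⟩
      have h5 : (Polynomial.aeval (a : E) P) = algebraMap K E (Polynomial.aeval a P) :=
        Polynomial.aeval_algebraMap_apply E a P
      rw [h5, hP0, map_zero]
    obtain ⟨x, hx⟩ := h.algClosed _ h2
    refine ⟨x, ?_⟩
    apply Subtype.ext
    rw [← hx]
    rfl

open scoped PowerSeries.WithPiTopology in
/-- the coefficients of the zeta series are algebraic -/
lemma isAlgebraic_coeff_zetaP {k K : Type} [Field k] [Finite k] [Field K] [Algebra k K]
    (h : IsCurveFunctionField k K) (j : ℕ) : IsAlgebraic ℚ_[p] (coeff j (zetaP p k K)) := by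
  classical
  have h1 : zetaP p k K =
      eulerL (fun _ : Place k K => (0 : ℤ_[p])) (fun v => v.deg) 0 (1 : ℂ_[p]) := by
    rw [zetaP, eulerL]
    congr 1
    funext v
    simp
  rw [h1, coeff_eulerL _ _ (fun v => deg_ne_zero h v) (fun m => finite_deg_le h m)
    (one_pow _)]
  exact isAlgebraic_evSum (one_pow _) _

/-- the reciprocal roots are integral -/
lemma integral_named {k K : Type} [Field k] [Finite k] [Field K] [Algebra k K]
    (h : IsCurveFunctionField k K) {A : Multiset ℂ_[p]}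
    (hA : zetaP p k K * (1 - PowerSeries.X) *
      (1 - PowerSeries.C (Nat.card k : ℂ_[p]) * PowerSeries.X) = recipProd A) :
    ∀ α ∈ A, IsIntegral ℚ_[p] α := by
  apply isIntegral_of_coeff
  let F₀ : IntermediateField ℚ_[p] ℂ_[p] := algebraicClosure ℚ_[p] ℂ_[p]
  let S : Subring (PowerSeries ℂ_[p]) := (PowerSeries.map (algebraMap F₀ ℂ_[p])).range
  have hmem : ∀ f : PowerSeries ℂ_[p], (∀ j, IsAlgebraic ℚ_[p] (coeff j f)) → f ∈ S := by
    intro f hf
    refine ⟨PowerSeries.mk fun j => ⟨coeff j f, mem_algebraicClosure_iff.2 (hf j)⟩, ?_⟩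
    ext j
    simp
  have h1 : zetaP p k K ∈ S := hmem _ fun j => isAlgebraic_coeff_zetaP h j
  have hX : (PowerSeries.X : PowerSeries ℂ_[p]) ∈ S := ⟨PowerSeries.X, by simp⟩
  have hC : (PowerSeries.C (Nat.card k : ℂ_[p]) : PowerSeries ℂ_[p]) ∈ S :=
    ⟨PowerSeries.C (Nat.card k : F₀), by simp⟩
  have h2 : recipProd A ∈ S := by
    rw [← hA]
    exact S.mul_mem (S.mul_mem h1 (S.sub_mem S.one_mem hX))
      (S.sub_mem S.one_mem (S.mul_mem hC hX))
  obtain ⟨g, hg⟩ := h2
  intro j
  rw [← hg]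
  rw [PowerSeries.coeff_map]
  exact mem_algebraicClosure_iff.1 (coeff j g).2

theorem taskEnd : TaskEnd := by
  classical
  intro hW hF hG p _ k F E _ _ _ _ _ _ _ _ _ h
  obtain ⟨c, hc, N₁, hN₁⟩ := ramification_Lfun k h
  obtain ⟨N₂, hN₂⟩ := hG p k F E h
  refine ⟨c, hc, max N₁ (N₂ + 1), ?_⟩
  intro K A hKA n hn
  obtain ⟨m, rfl⟩ : ∃ m, n = m + 1 := ⟨n - 1, by omega⟩
  have hm : N₂ ≤ m := by omega
  obtain ⟨s, hs, hfac⟩ := hN₂ K (fun n => (hKA n).1) m hm
  obtain ⟨Φ⟩ := h.group
  obtain ⟨χ₀, hχ₀⟩ := exists_char Φ.toMulEquiv (m + 1)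
  have hB : ∀ χ : (E ≃ₐ[F] E) →* ℂ_[p]ˣ, orderOf χ = p ^ (m + 1) →
      ∃ B : Multiset ℂ_[p], Lfun k χ = recipProd B := fun χ hχ =>
    hW p k F E h (m + 1) χ hχ (hF p k F E h K A hKA (m + 1) χ (by omega) hχ)
  choose! B hB' using hB
  have hfac2 : recipProd (A (m + 1)) = recipProd (B χ₀) *
      recipProd (A m + ∑ χ ∈ s.erase χ₀, B χ) := by
    rw [← (hKA (m + 1)).2, hfac]
    have h1 : ∏ χ ∈ s, Lfun k χ = recipProd (B χ₀) * recipProd (∑ χ ∈ s.erase χ₀, B χ) := by
      rw [← recipProd_finset, ← Finset.mul_prod_erase s _ ((hs χ₀).2 hχ₀), hB' χ₀ hχ₀]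
      congr 1
      refine Finset.prod_congr rfl fun χ hχ => ?_
      exact hB' χ ((hs χ).1 (Finset.mem_of_mem_erase hχ))
    rw [h1, recipProd_add, ← (hKA m).2]
    ring
  have hfin : FiniteDimensional F (K (m + 1)) := by
    apply Module.finite_of_finrank_pos
    rw [(hKA (m + 1)).1]
    exact pow_pos (Fact.out : p.Prime).pos _
  have hcurve : IsCurveFunctionField k (K (m + 1)) := layer_curve h (K (m + 1))
  have hint := integral_named hcurve (hKA (m + 1)).2
  have h3 := hN₁ (m + 1) (by omega) χ₀ hχ₀ (B χ₀) (hB' χ₀ hχ₀)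
  refine h3.trans ?_
  exact_mod_cast ramIdx_mono (genField_le hfac2) (ramIdx_ne_zero _ hint)

end Pool.Agent.H412R3.ZT
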